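import Pool.Agent.U227.FerCub

/-!
# Hartshorne's conjecture for hypersurfaces with a Fermat part

Let `X` be a smooth hypersurface with the equation `∑ x_j ^ d + f = 0`, where `j` runs through a set `ι` of
variables which do not occur in the polynomial `f` of degree `d` in the other variables. The group of the
`ι`-tuples of `d`-th roots of unity (written additively as `(ℤ/d)^ι`) and the permutations of `ι` act on
`X` and on `W = A^i(X)`, and fix `h = h^i`. For a subgroup `H` one has `A^i(X/H) = A^i(X)^H`. The quotient
of `X` by the roots of unity acting on one coordinate `x_j` is the projective space, hence the elements of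
`A^i(X)` fixed by this subgroup are multiples of `h^i`. These two facts (which are known, for all `i`) are the
hypotheses of the theorem, in the form: `W` is a rational vector space with actions of the two groups, `h` is
an invariant element, and the elements fixed by the roots of unity acting on one coordinate are multiples
of `h`.

For `a` in `(ℤ/d)^ι` let `K_a` be the kernel of the character `x ↦ ∑ a_j x_j`. We show:

1. For a subgroup `H`, `A^i(X/H)` is spanned by `h^i` if and only if `A^i(X/K_a)` is, for all `a` such that
   all `a_j` are different from zero and `K_a` contains `H`.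
2. In particular `A^i(X/H)` is spanned by `h^i` if `H` is not contained in such a `K_a`.
3. `A^i(X)` is spanned by `h^i`, which for `i < n/2` is Hartshorne's conjecture, if and only if `A^i(X/K_b)`
   is for all `b` in a set of representatives modulo units and permutations of these `a`.
4. For `d = 3` and `r` variables it is enough to take the `b` with `k` entries `-1` and `r - k` entries `1`,
   `2 k ≤ r`, so `⌊r/2⌋ + 1` quotients.

For the Fermat hypersurfaces the decomposition of the cohomology and of the motive by characters is
classical (Shioda, Katsura); here `f` is arbitrary and the statement is about rational Chow groups, which can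
be infinite-dimensional, and about all quotients.
-/

open Pool.Agent.U227.Fer

universe w

namespace Pool.Agent.Results.MP_4be043_ag.FermatPart

/-- **Hartshorne's conjecture for hypersurfaces with a Fermat part.** -/
theorem result (W : Type w) [AddCommGroup W] [Module ℚ W] :
    (∀ (d : ℕ) [NeZero d] (ι : Type) [Fintype ι] (D : FermatAction d ι W),
      (∀ j, D.OnlyH (coord j)) →
        (∀ H : Subgroup (Diag d ι), D.OnlyH H ↔
          ∀ a : ι → ZMod d, (∀ j, a j ≠ 0) → H ≤ charKer a → D.OnlyH (charKer a)) ∧
        (∀ H : Subgroup (Diag d ι), (∀ a : ι → ZMod d, (∀ j, a j ≠ 0) → ¬ H ≤ charKer a) →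
          D.OnlyH H) ∧
        ∀ R : Set (ι → ZMod d), (∀ a : ι → ZMod d, (∀ j, a j ≠ 0) →
          ∃ b ∈ R, ∃ (u : (ZMod d)ˣ) (π : Equiv.Perm ι), ∀ j, a j = u * b (π j)) →
            ((∀ w : W, ∃ c : ℚ, w = c • D.h) ↔ ∀ b ∈ R, D.OnlyH (charKer b))) ∧
    (∀ (r : ℕ) (D : FermatAction 3 (Fin r) W), (∀ j, D.OnlyH (coord j)) →
      ((∀ w : W, ∃ c : ℚ, w = c • D.h) ↔
        ∀ k : ℕ, 2 * k ≤ r → D.OnlyH (charKer (signs r k)))) :=
  ⟨fun _ _ _ _ D hc => D.fermat hc, fun _ D hc => D.cubic hc⟩

end Pool.Agent.Results.MP_4be043_ag.FermatPart
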