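import Pool.Agent.U724.CH.Harts

/-!
# MP_4be043_ag: Hartshorne's conjecture and the growth of the cycles generated on powers of a hypersurface

Let `X` be a smooth complex hypersurface of dimension `n` and degree `d`, `h` the class of a hyperplane
section and `f` the class of the diagonal minus `1 / d` times the sum of the classes `h ^ i × h ^ (n - i)`,
the projector to the primitive part of the motive. It maps a class `z` of codimension `i` to `z - c h ^ i`
with a rational number `c`, and `h ^ i` to zero. Let `δ (m)` be the dimension of the space of the
cycles on `X ^ m` (all dimensions, rational coefficients, modulo rational equivalence) which are sums of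
images of the classes `f z`, `z` of codimension `i < n / 2`, under correspondences from `X` to `X ^ m`,
and `ρ (m)` the (finite) rank of the group of the cycles on `X ^ m` modulo numerical equivalence.

Theorem. (1) `δ (m) / ρ (m)` converges to a natural number `N` or to infinity, and `N = 0` if and only if
Hartshorne's conjecture holds for `X`: `A ^ i (X) = ℚ h ^ i` for all `i < n / 2`. (2) Let
`f = e_1 + ... + e_s` modulo numerical equivalence with simple parts `e_j` of ranks `r_j`. If the
conjecture fails for `X` then `N` is infinite or `N ≥ r_j` for some `j`.

So the conjecture holds for `X` if and only if `δ (m) < (r - ε) ρ (m)` for infinitely many `m`, for one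
`ε > 0`, where `r` is the smallest rank of a simple constituent of the primitive motive (such a
decomposition exists by Jannsen's theorem). For very general hypersurfaces the primitive motive is simple
modulo numerical equivalence (the monodromy group is a full orthogonal or symplectic group), so that
`r` is the dimension of the primitive cohomology, which is at least `c d ^ (n + 1)` for large `d`: a single
class which contradicts the conjecture generates at least `(r - ε) ρ (m)` linearly independent cycles
on `X ^ m` for all large `m`. The motive of `X` need not be finite-dimensional.

The theorem is stated for a variety `X` and classes `h i` of codimension `i ≤ n` with a correspondence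
`f` which maps each cycle `z` of codimension `i` to `z - c h i` and `h i` to zero (structure
`Motives.IsPrimitive`).

Idea of the proof. Let `N` be finite. Then (library) products of `N` numerically trivial correspondences
between powers of `X` act as zero on the generated cycles. Let `z = f z ≠ 0` be one of the primitive
classes and `b + 1` the smallest number such that the products of `b + 1` numerically trivial
correspondences kill `z`. For some `j` the cycle `w = e_j z` is not killed by all products of `b`
numerically trivial correspondences, and `e_j w = w` modulo cycles which are killed by these. If `φ` is a
correspondence from `X` to `X ^ m` such that `φ w` is killed by these products then `φ e_j` is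
numerically trivial, because `e_j` is simple. So `δ (m)` is at least the dimension of the space of the
correspondences `φ e_j` modulo numerical equivalence, which is asymptotically `r_j ρ (m)` (library: the
asymptotic multiplicity is the rank).

The setting. The Chow group `Chow X` of a scheme `X` (cycles of all dimensions with rational
coefficients modulo rational equivalence) is defined with the order of vanishing of Mathlib, and
`codim X i` is the subspace spanned by the closures of the points whose local ring has dimension `i`.
Intersection theory enters through the category `C` of Chow motives over `k` with the correspondences
of all degrees as morphisms: a rigid symmetric monoidal category with objects `h (X)` for the varieties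
`X` over `k`, self-dual, with `Hom (1, h (X)) = Chow X` and `h (X × Y) = h (X) ⊗ h (Y)` (structure
`Motives`). `R` is a Weil cohomology with coefficients extended to an algebraically closed field `K`, a
tensor functor from `C` to super vector spaces; `R.CPlus` is the sign conjecture, which holds for
hypersurfaces.
-/

set_option autoImplicit false

open CategoryTheory MonoidalCategory Module
open Pool.Agent.Y112.SR Pool.Agent.Y112.KD Pool.Agent.N64.AF
open Pool.Agent.U724.NT Pool.Agent.U724.CH

namespace Pool.Agent.Results.MP_4be043_ag.PrimitiveGrowth

universe u u' v w

/-- The law for the cycles on the powers of `X` which are generated by the primitive classes of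
codimension `i < n / 2`; `N = 0` if and only if all cycles of codimension `i < n / 2` are multiples of
`h i`, and otherwise `N` is infinite or at least the rank of one of the simple constituents of the
primitive part of the motive. -/
theorem result {k : Type u} [Field k] {C : Type u'} [Category.{v} C] [Preadditive C]
    [MonoidalCategory C] [MonoidalPreadditive C] [SymmetricCategory C] [RightRigidCategory C]
    [Linear ℚ C] [MonoidalLinear ℚ C] (M : Motives k C)
    {K : Type w} [Field K] [IsAlgClosed K] [Algebra ℚ K] (R : SuperRealisation C K)
    (X : Sch k) (hX : M.IsVar X) (hne : Nonempty X.left) (hs : R.CPlus (M.h X)) (n : ℕ)
    (h : ℕ → Chow X.left) (f : Chow (prod X X).left) (H : M.IsPrimitive hX n h f) :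
    ∃ N : ℕ∞, HasLaw ℚ (M.h X) (fun m => dimE ℚ (M.gen hX (M.primCycles hX n f) m)) N ∧
      (N = 0 ↔ ∀ i : ℕ, 2 * i < n → codim X.left i = Submodule.span ℚ {h i}) ∧
      ∀ (s : ℕ) (e : Fin s → Chow (prod X X).left) (r : Fin s → ℕ), M.IsDecomp R hX f e r →
        N ≠ ⊤ → (∀ i, N < r i) →
          ∀ i : ℕ, 2 * i < n → codim X.left i = Submodule.span ℚ {h i} :=
  H.law R hne hs

end Pool.Agent.Results.MP_4be043_ag.PrimitiveGrowth
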