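import Pool.Agent.U926.HC.Fermat

/-!
# Hartshorne's conjecture for hypersurfaces with equations in separate sets of variables

Let `k` be an algebraically closed field of characteristic zero (for instance `ℂ`), `d ≥ 3`, and
let `X ⊂ ℙ^(n + 1)` be the hypersurface

`g_0(x^(0)) + g_1(x^(1)) + ⋯ + g_r(x^(r)) = 0`,

where the `g_l` are nonsingular forms of degree `d` in separate sets of variables. Let `c_l` be integers
such that `c_l ≥ 1` and `binomial(c_l + d - 1, c_l) ≤ (number of variables of g_l)` for `l ≥ 1`, and
`c_0 = 0` or `binomial(c_0 + d - 1, c_0) < (number of variables of g_0)`. (For `c_l = 1` the condition is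
that `g_l` has at least `d` variables; there is no condition on `g_0` if `c_0 = 0`.) Put `c = ∑ c_l`.

**Theorem.** (1) `A^j(X) = ℚ h^j` for all `j < n / 2` with `j ≤ c + 1`.
(2) `A^j(X) = ℚ h^j` for all `j > n - c`, i.e. `CH_l(X) ⊗ ℚ = ℚ` for `l < c`.
(3) For the Fermat hypersurface `x_1^d + ⋯ + x_N^d = 0`, `N = n + 2`: `A^j(X) = ℚ h^j` for all
`j < n / 2` with `d (j - 1) < N`, and for all `j = n - l` with `d (l + 1) < N`.

For the Fermat hypersurfaces `(3)` is the case `c = ⌈N / d⌉ - 1`, which is the Hodge coniveau of
the primitive cohomology; so (2) is sharp for them (and, more generally, for the sums of forms `g_l`,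
`l ≥ 1`, in exactly `d` variables and a form `g_0` in at most `d` variables). If `n ≤ 2 c + 4` the
theorem is the complete statement of Hartshorne's conjecture for `X`: for example for the Fermat
cubics of dimension `≤ 12` and `14` and the Fermat quartics of dimension `≤ 8`. For `r = 0` it
follows from the theorem of Esnault, Levine and Viehweg, and its consequence for cycles of small
codimension; these give for all hypersurfaces only the range
`binomial(c + d - 1, c) < N`, `j ≤ c + 1`, instead of `c d < N`.

The setting: `𝒱` is a class of smooth proper varieties over `k` closed under products, `C` the Chow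
groups with rational coefficients (`IsChowProj`), `H` a Weil cohomology (`IsWeilProj`), in the form
of their formal properties. `T.V F` is the hypersurface `F = 0`, `T.h F` the class of a hyperplane
section. The known theorems which are used are the fields of `IsHypersurfaceTheory`:

* the Lefschetz theorem on the cohomology of hypersurfaces;
* the theorem of Esnault, Levine and Viehweg (for `c = 1` Roitman): `CH_l(X) ⊗ ℚ = ℚ` for `l < c` if
  `binomial(c + d - 1, c) ≤ N - 1`, in the form of the decomposition of the diagonal (Bloch and
  Srinivas): the primitive motive of `X` is a direct summand of a sum of motives `h(Z)(-n)`, `n ≥ c`;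
* the theorem of Katsura and Shioda (`IsDominated`): for `F = f(x) + g(y)` the hypersurface `F = 0` is
  dominated by the product of `f(x) + z^d = 0` and `g(y) + w^d = 0`, blown up in the product of
  `f(x) = 0` and `g(y) = 0`;

and `PicardProperty`: the action of correspondences on the homologically trivial divisor classes
is determined by the action on `H^1`.

The proof: the primitive motive of `F = 0` is a direct summand of the sum of the tensor product of the
primitive motives of `f(x) + z^d = 0` and `g(y) + w^d = 0` and of the Tate twist of the tensor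
product of the primitive motives of `f(x) = 0` and `g(y) = 0` (`join`; the contributions of the
powers of `h` vanish, since cones over linear sections are linear sections of cones). Hence the
coniveau of the sum is at least the minimum of `c(f + z^d) + c(g + w^d)` and `c(f) + c(g) + 1`, and
by induction the primitive motive `M` of `X` has coniveau `c`. Then the cycles of codimension
`j ≤ c + 1` on `M` are cycles of codimension at most one on an effective motive without cohomology in
the degrees `0, 1, 2`, so they are zero (`kill`).
-/

set_option autoImplicit false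

open CategoryTheory AlgebraicGeometry MvPolynomial

universe u v w

namespace Pool.Agent.Results.MP_4be043_ag.SeparatedForms

open Pool.Agent.H914 Pool.Agent.H914.VarClass Pool.Agent.H914.VarClass.Obj Pool.Agent.W492.BB
  Pool.Agent.TH133 Pool.Agent.U926.HC

/-- **Hartshorne's conjecture on the Chow groups of hypersurfaces `g_0 + ⋯ + g_r = 0` with equations
in separate sets of variables**, in the codimensions `j ≤ c + 1`, and the dimensions `l < c`. Here
`n + 2 = Nat.card (Σ l, σ l)` is the number of variables, and `c = ∑ l, c l`. -/
theorem result {k : Type u} [Field k] [IsAlgClosed k] [CharZero k] {𝒱 : VarClass k}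
    {C : TheoryData.{u, v, 0} 𝒱 ℚ} {K : Type w} [Field K] [IsChowProj C]
    {H : WeilTheoryData.{u, v, w} C K} [IsWeilProj H] (hP : PicardProperty H)
    (T : HypersurfaceData C) (d : ℕ) (hd : 3 ≤ d) (hT : IsHypersurfaceTheory H T d) :
    (∀ (r : ℕ) (σ : Fin (r + 1) → Type) (g : ∀ l, MvPolynomial (σ l) k) (c : Fin (r + 1) → ℕ),
      IsAdmissible d g c → ∀ j : ℕ,
        (j ≤ 1 + ∑ l, c l → 2 * j + 2 < Nat.card (Σ l, σ l) → IsGenerated T (sumForms g) j) ∧
        (3 ≤ Nat.card (Σ l, σ l) → Nat.card (Σ l, σ l) < j + 2 + ∑ l, c l →
          IsGenerated T (sumForms g) j)) ∧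
    ∀ N : ℕ, 3 ≤ N →
      (∀ j : ℕ, d * j < N + d → 2 * j + 2 < N → IsGenerated T (fermat k N d) j) ∧
      ∀ l : ℕ, d * (l + 1) < N → IsGenerated T (fermat k N d) (N - 2 - l) := by
  refine ⟨fun r σ g c h j => ?_, fun N hN => ⟨fun j hj hj2 => ?_, fun l hl => ?_⟩⟩
  · obtain ⟨cs, h1, h2⟩ := sep_sumForms h.finite h.nonempty g h.form c h.large h.zero
    rw [← h1]
    exact of_sep hP hd hT h2 j
  · have h1 : (j - 1) * d < N := by
      rcases Nat.eq_zero_or_pos j with rfl | h0
      · omega
      · obtain ⟨i, rfl⟩ := Nat.exists_eq_add_of_le' h0
        rw [Nat.add_sub_cancel, Nat.mul_comm]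
        rw [Nat.mul_add] at hj
        omega
    refine (of_sep hP hd hT (sep_fermat (k := k) (by omega) (j - 1) N h1) j).1 ?_ ?_
    · rw [List.sum_replicate, smul_eq_mul]
      omega
    · rwa [Nat.card_eq_fintype_card, Fintype.card_fin]
  · rw [Nat.mul_comm] at hl
    have h1 : l + 1 ≤ (l + 1) * d := Nat.le_mul_of_pos_right _ (by omega)
    have h2 : 3 * (l + 1) ≤ (l + 1) * d := by
      rw [Nat.mul_comm 3]
      exact Nat.mul_le_mul_left _ hd
    refine (of_sep hP hd hT (sep_fermat (k := k) (by omega) (l + 1) N hl) (N - 2 - l)).2 ?_ ?_
    · rwa [Nat.card_eq_fintype_card, Fintype.card_fin]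
    · rw [List.sum_replicate, smul_eq_mul, Nat.card_eq_fintype_card, Fintype.card_fin]
      omega

end Pool.Agent.Results.MP_4be043_ag.SeparatedForms
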