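import Pool.Agent.U243.ACFBound

/-!
# Hartshorne's conjecture on hypersurfaces: rational equivalences of bounded complexity

Over the algebraic closure of a finite field it is expected (Beilinson) that cycles which are homologically trivial are torsion for
rational equivalence. Here: if this is true for the cycles `d Z - deg(Z) hⁱ` on smooth hypersurfaces of degree `d` over such fields for
infinitely many `p`, with rational equivalences whose complexity is bounded in terms of `n`, `d`, `i` and the degree of `Z` only,
then Hartshorne's conjecture is true over `ℂ`, and the converse holds.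

`ChowTheory` collects the known facts used.

* The pairs `(X, Z)` of a hypersurface `X ⊂ ℙⁿ⁺¹` of degree `d` and a cycle `Z = Z₁ - Z₂` of codimension `i` on `X`, where `Z₁` and `Z₂`
  are effective of degree at most `e`, are given by coefficients `a` (Chow forms). `Pair n d i e K a`: `X` is smooth.
* `RatEq m n d i e K a`: for some `0 < k ≤ m` the cycles `k d Z` and `k deg(Z) hⁱ` are rationally equivalent on `X`, by a rational
  equivalence of complexity at most `m` (at most `m` subvarieties `W ⊂ X` of codimension `i - 1` and of degree at most `m`, with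
  rational functions of degree at most `m`, and linear sections representing `hⁱ`).
* `pair_fo`, `rat_fo`: these are constructible conditions over `ℤ`, so first-order over algebraically closed fields.
* `concl_iff`: every class in `Aⁱ(X)` is a rational multiple of `hⁱ` if and only if for all `e` and all pairs `(X, Z)` there is
  such a rational equivalence for some `m` (`Aⁱ(X)` is spanned by the classes `[Z]`, and `deg hⁱ = d`).
-/

set_option autoImplicit false

namespace Pool.Agent.Results.MP_4be043_ag.UniformEquivalences

open Pool.Agent.U243.ACF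

/-- Cycles on smooth hypersurfaces over algebraically closed fields, with the known facts that are used. -/
structure ChowTheory where
  /-- the number of the coefficients of `(X, Z)` -/
  r : ℕ → ℕ → ℕ → ℕ → ℕ
  /-- `a` gives a smooth hypersurface `X_a ⊂ ℙⁿ⁺¹` of degree `d` and a cycle `Z_a` of codimension `i` on it, the difference of two
  effective cycles of degree at most `e` -/
  Pair : ∀ (n d i e : ℕ) (K : Type) [Field K], (Fin (r n d i e) → K) → Prop
  /-- `k d Z_a` is rationally equivalent to `k deg(Z_a) hⁱ` for some `0 < k ≤ m`, by a rational equivalence of complexity at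
  most `m` -/
  RatEq : ℕ → ∀ (n d i e : ℕ) (K : Type) [Field K], (Fin (r n d i e) → K) → Prop
  /-- `Aⁱ(X) = ℚ hⁱ` for every smooth complex hypersurface `X ⊂ ℙⁿ⁺¹` of degree `d` -/
  Concl : ∀ _n _d _i : ℕ, Prop
  pair_fo : ∀ n d i e, FO1 (Pair n d i e)
  rat_fo : ∀ n d i e, FO (fun m => RatEq m n d i e)
  rat_mono : ∀ n d i e, Incr (fun m => RatEq m n d i e)
  concl_iff : ∀ n d i, Concl n d i ↔ ∀ e a, Pair n d i e ℂ a → ∃ m, RatEq m n d i e ℂ a

variable (S : ChowTheory)

/-- over `K`, for all smooth hypersurfaces of degree `d` in `ℙⁿ⁺¹` and all differences `Z` of effective cycles of codimension `i` and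
degree at most `e` there is a rational equivalence as in `RatEq`, of complexity at most `m` -/
def Uniform (n d i e m : ℕ) (K : Type) [Field K] : Prop :=
  ∀ a : Fin (S.r n d i e) → K, S.Pair n d i e K a → S.RatEq m n d i e K a

/-- For all `n`, `d`, `i` the following are equivalent: `Aⁱ(X) = ℚ hⁱ` for every smooth complex hypersurface `X ⊂ ℙⁿ⁺¹` of degree
`d`; for every `e` there is `m` with `Uniform n d i e m ℂ`; the same over all algebraically closed fields of characteristic
zero or `p > m`; the same over the algebraic closure of `ℚ`; the same over some algebraically closed field of characteristic `p`, for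
infinitely many `p`. Hence Q1 is equivalent to the last condition for all `n ≥ 1`, `d ≥ 1`, `i < n / 2`. -/
theorem result :
    (∀ n d i : ℕ, List.TFAE [
      S.Concl n d i,
      ∀ e, ∃ m, Uniform S n d i e m ℂ,
      ∀ e, ∃ m, ∀ (K : Type) [Field K], IsAlgClosed K → (CharZero K ∨ ∃ p, m < p ∧ p.Prime ∧ CharP K p) →
        Uniform S n d i e m K,
      ∀ e, ∃ m, Uniform S n d i e m (AlgebraicClosure ℚ),
      ∀ e, ∃ m, ∀ B, ∃ p, B < p ∧ p.Prime ∧ ∃ (K : Type) (_ : Field K), IsAlgClosed K ∧ CharP K p ∧
        Uniform S n d i e m K]) ∧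
    ((∀ n d i : ℕ, 1 ≤ n → 1 ≤ d → 2 * i < n → S.Concl n d i) ↔
      ∀ n d i e : ℕ, 1 ≤ n → 1 ≤ d → 2 * i < n →
        ∃ m, ∀ B, ∃ p, B < p ∧ p.Prime ∧ ∃ (K : Type) (_ : Field K), IsAlgClosed K ∧ CharP K p ∧
          Uniform S n d i e m K) := by
  have key : ∀ n d i : ℕ, List.TFAE [
      S.Concl n d i,
      ∀ e, ∃ m, Uniform S n d i e m ℂ,
      ∀ e, ∃ m, ∀ (K : Type) [Field K], IsAlgClosed K → (CharZero K ∨ ∃ p, m < p ∧ p.Prime ∧ CharP K p) →
        Uniform S n d i e m K,
      ∀ e, ∃ m, Uniform S n d i e m (AlgebraicClosure ℚ),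
      ∀ e, ∃ m, ∀ B, ∃ p, B < p ∧ p.Prime ∧ ∃ (K : Type) (_ : Field K), IsAlgClosed K ∧ CharP K p ∧
        Uniform S n d i e m K] := by
    intro n d i
    have t := fun e => tfae (P := fun _ K _ a => S.Pair n d i e K a) (Q := fun m => S.RatEq m n d i e)
      (fun _ => S.pair_fo n d i e) (S.rat_fo n d i e) (fun _ _ _ _ _ _ _ h => h) (S.rat_mono n d i e)
    have t01 := fun e => (t e).out 0 1
    have t02 := fun e => (t e).out 0 2
    have t03 := fun e => (t e).out 0 3
    have t04 := fun e => (t e).out 0 4
    have h1 : S.Concl n d i ↔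
        ∀ e, ∀ a : Fin (S.r n d i e) → ℂ, (∀ _ : ℕ, S.Pair n d i e ℂ a) → ∃ m, S.RatEq m n d i e ℂ a := by
      rw [S.concl_iff n d i]
      constructor
      · intro h e a ha
        exact h e a (ha 0)
      · intro h e a ha
        exact h e a fun _ => ha
    tfae_have 1 ↔ 2 := h1.trans (forall_congr' t01)
    tfae_have 1 ↔ 3 := h1.trans (forall_congr' t02)
    tfae_have 1 ↔ 4 := h1.trans (forall_congr' t03)
    tfae_have 1 ↔ 5 := h1.trans (forall_congr' t04)
    tfae_finish
  refine ⟨key, ?_⟩
  have k04 := fun n d i => (key n d i).out 0 4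
  constructor
  · intro h n d i e h1 h2 h3
    exact (k04 n d i).1 (h n d i h1 h2 h3) e
  · intro h n d i h1 h2 h3
    exact (k04 n d i).2 fun e => h n d i e h1 h2 h3

end Pool.Agent.Results.MP_4be043_ag.UniformEquivalences
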